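import Mathlib

/-!
# Two independent 3D dimer samples without infinite paths

For every rational mean current `s` on the boundary of the octahedron `O = {|u_1| + |u_2| + |u_3| ≤ 1}`
(in particular for every such `s` that is not a vertex) there is an ergodic Gibbs measure `ν` on
dimer configurations of `ℤ^3` with mean current `s` such that, for `(τ₁, τ₂)` sampled from `ν ⊗ ν`,
the union of `τ₁` and `τ₂` has no infinite path with positive probability.

Construction: choose signs `σ` and a periodic sequence `c` of coordinate directions, and match the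
site `x` of even height `h = σ·x` with `x + σ_j e_j`, where `j = c (h / 2)`. Such a matching has no
finite modification at all (it is rigid), so the uniform measure on its finitely many translates is
an ergodic Gibbs measure.
-/

set_option autoImplicit false

namespace Pool.Agent.Results.MP_5cb0a4_pr.BoundaryCurrents

open MeasureTheory

/-- The vertices of `ℤ^3`. -/
abbrev Site : Type := Fin 3 → ℤ

/-- Nearest neighbours in `ℤ^3`. -/
def Nbr (x y : Site) : Prop := ∑ i, |x i - y i| = 1

/-- A dimer configuration (perfect matching of the nearest-neighbour graph of `ℤ^3`), given by its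
partner map: `τ x` is a neighbour of `x` and `τ (τ x) = x`. -/
def Dimers : Type := {τ : Site → Site // ∀ x, Nbr x (τ x) ∧ τ (τ x) = x}

/-- The sigma-algebra generated by the maps `τ ↦ τ x`. -/
instance instMeasurableSpaceDimers : MeasurableSpace Dimers :=
  inferInstanceAs (MeasurableSpace {τ : Site → Site // ∀ x, Nbr x (τ x) ∧ τ (τ x) = x})

/-- A site is even when the sum of its coordinates is even. -/
def IsEvenSite (x : Site) : Prop := Even (∑ i, x i)

/-- Translation of a dimer configuration by the vector `v`. -/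
def translate (v : Site) (τ : Dimers) : Dimers :=
  ⟨fun x => τ.1 (x - v) + v, fun x => by
    have h := τ.2 (x - v)
    refine ⟨?_, ?_⟩
    · refine Eq.trans ?_ h.1
      refine Finset.sum_congr rfl fun i _ => ?_
      simp only [Pi.add_apply, Pi.sub_apply]
      congr 1
      ring
    · simp only [add_sub_cancel_right, h.2, sub_add_cancel]⟩

/-- The sigma-algebra generated by the states of the edges that are not contained in `Λ`. -/
@[reducible] def outside (Λ : Finset Site) : MeasurableSpace Dimers :=
  MeasurableSpace.generateFrom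
    {E | ∃ x y : Site, ¬ (x ∈ Λ ∧ y ∈ Λ) ∧ E = {τ : Dimers | τ.1 x = y}}

/-- The dimer configurations with the same edges as `τ` among the edges not contained in `Λ`:
the completions of the part of `τ` outside `Λ`. -/
def completions (Λ : Finset Site) (τ : Dimers) : Set Dimers :=
  {τ' | ∀ x y : Site, ¬ (x ∈ Λ ∧ y ∈ Λ) → (τ'.1 x = y ↔ τ.1 x = y)}

/-- Gibbs measures: for every finite `Λ`, conditionally on the edges not contained in `Λ`, the
configuration is uniform among all the completions. -/
def IsGibbs (ν : Measure Dimers) : Prop :=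
  ∀ (Λ : Finset Site) (A : Set Dimers), MeasurableSet A →
    ν[A.indicator (fun _ => (1 : ℝ)) | outside Λ] =ᵐ[ν]
      fun τ => ((completions Λ τ ∩ A).ncard : ℝ) / ((completions Λ τ).ncard : ℝ)

/-- Invariance and ergodicity under the translations by the vectors of the even sublattice. -/
def IsErgodicEven (ν : Measure Dimers) : Prop :=
  (∀ v : Site, IsEvenSite v → ν.map (translate v) = ν) ∧
  ∀ A : Set Dimers, MeasurableSet A →
    (∀ v : Site, IsEvenSite v → translate v ⁻¹' A = A) → ν A = 0 ∨ ν A = 1

/-- The mean current `s(ν) = E_ν[τ(0) - 0]`. -/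
noncomputable def meanCurrent (ν : Measure Dimers) (i : Fin 3) : ℝ :=
  ∫ τ, ((τ.1 0 i : ℤ) : ℝ) ∂ν

/-- The union of two dimer configurations (as a simple graph: an edge used by both appears once). -/
def unionGraph (τ₁ τ₂ : Dimers) : SimpleGraph Site where
  Adj x y := x ≠ y ∧ (τ₁.1 x = y ∨ τ₂.1 x = y)
  symm := ⟨fun x y h => ⟨h.1.symm, h.2.imp
    (fun h' => by rw [← h', (τ₁.2 x).2]) (fun h' => by rw [← h', (τ₂.2 x).2])⟩⟩
  loopless := ⟨fun x h => h.1 rfl⟩

/-- The infinite paths in the union of `τ₁` and `τ₂`: its infinite connected components. -/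
def infinitePaths (τ₁ τ₂ : Dimers) : Set (unionGraph τ₁ τ₂).ConnectedComponent :=
  {C | C.supp.Infinite}

/-! ### The layered matchings -/

/-- the height of a site with respect to the signs `σ` -/
def ht (σ : Fin 3 → ℤ) (x : Site) : ℤ := ∑ i, σ i * x i

lemma ht_add (σ : Fin 3 → ℤ) (x y : Site) : ht σ (x + y) = ht σ x + ht σ y := by
  simp [ht, mul_add, Finset.sum_add_distrib]

lemma ht_sub (σ : Fin 3 → ℤ) (x y : Site) : ht σ (x - y) = ht σ x - ht σ y := by
  simp [ht, mul_sub, Finset.sum_sub_distrib]

lemma ht_single (σ : Fin 3 → ℤ) (j : Fin 3) (a : ℤ) : ht σ (Pi.single j a) = σ j * a := by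
  unfold ht
  rw [Finset.sum_eq_single j]
  · simp
  · intro i _ hi; simp [Pi.single_eq_of_ne hi]
  · simp

variable {N : ℕ} [NeZero N]

/-- the direction used at `x` -/
def dir (σ : Fin 3 → ℤ) (c : ZMod N → Fin 3) (k : ZMod N) (x : Site) : Fin 3 :=
  c (((ht σ x / 2 : ℤ) : ZMod N) + k)

/-- the orientation of the step at `x`: `1` at even heights, `-1` at odd heights -/
def eps (σ : Fin 3 → ℤ) (x : Site) : ℤ := if Even (ht σ x) then 1 else -1

/-- the partner map of the layered matching -/
def partner (σ : Fin 3 → ℤ) (c : ZMod N → Fin 3) (k : ZMod N) (x : Site) : Site :=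
  x + Pi.single (dir σ c k x) (eps σ x * σ (dir σ c k x))

lemma ht_partner {σ : Fin 3 → ℤ} (hσ : ∀ i, σ i * σ i = 1) (c : ZMod N → Fin 3) (k : ZMod N)
    (x : Site) : ht σ (partner σ c k x) = ht σ x + eps σ x := by
  rw [partner, ht_add, ht_single]
  have := hσ (dir σ c k x)
  linear_combination eps σ x * this

lemma eps_partner {σ : Fin 3 → ℤ} (hσ : ∀ i, σ i * σ i = 1) (c : ZMod N → Fin 3) (k : ZMod N)
    (x : Site) : eps σ (partner σ c k x) = - eps σ x := by
  have h := ht_partner hσ c k x
  unfold eps at h ⊢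
  rw [h]
  by_cases hx : Even (ht σ x)
  · rw [if_pos hx, if_neg]
    rw [Int.not_even_iff_odd]
    exact hx.add_one
  · rw [if_neg hx, if_pos]
    · simp
    · rw [Int.not_even_iff_odd] at hx
      have : ht σ x + -1 = ht σ x - 1 := by ring
      rw [this]
      exact hx.sub_odd odd_one

lemma dir_partner {σ : Fin 3 → ℤ} (hσ : ∀ i, σ i * σ i = 1) (c : ZMod N → Fin 3) (k : ZMod N)
    (x : Site) : dir σ c k (partner σ c k x) = dir σ c k x := by
  have h := ht_partner hσ c k x
  unfold dir
  rw [h]
  congr 3
  unfold eps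
  by_cases hx : Even (ht σ x)
  · rw [if_pos hx]
    obtain ⟨m, hm⟩ := hx
    omega
  · rw [if_neg hx]
    rw [Int.not_even_iff_odd] at hx
    obtain ⟨m, hm⟩ := hx
    omega

lemma abs_sign {a : ℤ} (ha : a * a = 1) : |a| = 1 := by
  rcases mul_self_eq_one_iff.1 ha with h | h <;> simp [h]

lemma abs_eps (σ : Fin 3 → ℤ) (x : Site) : |eps σ x| = 1 := by
  unfold eps; split_ifs <;> simp

/-- the layered matching -/
def layered {σ : Fin 3 → ℤ} (hσ : ∀ i, σ i * σ i = 1) (c : ZMod N → Fin 3) (k : ZMod N) : Dimers :=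
  ⟨partner σ c k, fun x => by
    refine ⟨?_, ?_⟩
    · unfold Nbr
      rw [Finset.sum_eq_single (dir σ c k x)]
      · simp only [partner, Pi.add_apply, Pi.single_eq_same, sub_add_cancel_left, abs_neg, abs_mul,
          abs_eps, abs_sign (hσ _), mul_one]
      · intro i _ hi
        simp [partner, Pi.single_eq_of_ne hi]
      · simp
    · have h1 := eps_partner hσ c k x
      have h2 := dir_partner hσ c k x
      rw [partner, h1, h2]
      conv_lhs => rw [partner]
      rw [add_assoc, ← Pi.single_add]
      simp⟩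

lemma translate_layered {σ : Fin 3 → ℤ} (hσ : ∀ i, σ i * σ i = 1) (c : ZMod N → Fin 3)
    (k : ZMod N) (v : Site) (hv : Even (ht σ v)) :
    translate v (layered hσ c k) = layered hσ c (k - ((ht σ v / 2 : ℤ) : ZMod N)) := by
  apply Subtype.ext
  funext x
  show partner σ c k (x - v) + v = partner σ c _ x
  obtain ⟨m, hm⟩ := hv
  have h1 : eps σ (x - v) = eps σ x := by
    unfold eps
    rw [ht_sub, hm]
    have : Even (ht σ x - (m + m)) ↔ Even (ht σ x) := by
      rw [Int.even_sub]
      constructor
      · intro h; exact h.2 ⟨m, rfl⟩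
      · intro h; exact ⟨fun _ => ⟨m, rfl⟩, fun _ => h⟩
    simp only [this]
  have h2 : dir σ c k (x - v) = dir σ c (k - ((ht σ v / 2 : ℤ) : ZMod N)) x := by
    unfold dir
    rw [ht_sub, hm]
    congr 1
    have e1 : (ht σ x - (m + m)) / 2 = ht σ x / 2 - m := by omega
    have e2 : (m + m) / 2 = m := by omega
    rw [e1, e2]
    push_cast
    ring
  unfold partner
  rw [h1, h2]
  abel

lemma even_ht_iff {σ : Fin 3 → ℤ} (hσ : ∀ i, σ i * σ i = 1) (v : Site) :
    Even (ht σ v) ↔ IsEvenSite v := by
  unfold ht IsEvenSite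
  have key : ∀ i, Even (σ i * v i - v i) := by
    intro i
    rcases mul_self_eq_one_iff.1 (hσ i) with h | h
    · rw [h]; simp
    · rw [h]; exact ⟨- v i, by ring⟩
  have hsum : Even (∑ i, σ i * v i - ∑ i, v i) := by
    rw [← Finset.sum_sub_distrib]
    exact Finset.even_sum _ fun i _ => key i
  rw [Int.even_sub] at hsum
  exact hsum

/-! ### Rigidity -/

lemma sum_perm {D : Finset Site} {φ : Site → Site} (hmap : ∀ x ∈ D, φ x ∈ D)
    (hinj : ∀ x ∈ D, ∀ y ∈ D, φ x = φ y → x = y) (f : Site → ℤ) :
    ∑ x ∈ D, f (φ x) = ∑ x ∈ D, f x := by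
  classical
  have himg : D.image φ = D := by
    apply Finset.eq_of_subset_of_card_le
    · intro y hy
      obtain ⟨x, hx, rfl⟩ := Finset.mem_image.1 hy
      exact hmap x hx
    · rw [Finset.card_image_of_injOn]
      intro x hx y hy h
      exact hinj x hx y hy h
  conv_rhs => rw [← himg]
  rw [Finset.sum_image]
  intro x hx y hy h
  exact hinj x hx y hy h

lemma nbr_cases {x y : Site} (h : Nbr x y) :
    ∃ i : Fin 3, ∃ a : ℤ, (a = 1 ∨ a = -1) ∧ y = x + Pi.single i a := by
  unfold Nbr at h
  rw [Fin.sum_univ_three] at h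
  have h0 := abs_nonneg (x 0 - y 0)
  have h1 := abs_nonneg (x 1 - y 1)
  have h2 := abs_nonneg (x 2 - y 2)
  have hc : (|x 0 - y 0| = 1 ∧ |x 1 - y 1| = 0 ∧ |x 2 - y 2| = 0) ∨
      (|x 0 - y 0| = 0 ∧ |x 1 - y 1| = 1 ∧ |x 2 - y 2| = 0) ∨
      (|x 0 - y 0| = 0 ∧ |x 1 - y 1| = 0 ∧ |x 2 - y 2| = 1) := by omega
  rcases hc with ⟨a0, a1, a2⟩ | ⟨a0, a1, a2⟩ | ⟨a0, a1, a2⟩
  · rw [abs_eq_zero] at a1 a2
    refine ⟨0, y 0 - x 0, ?_, ?_⟩
    · rcases abs_eq (by norm_num : (0:ℤ) ≤ 1) |>.1 a0 with h | h <;> omega
    · funext i; fin_cases i <;> simp <;> omega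
  · rw [abs_eq_zero] at a0 a2
    refine ⟨1, y 1 - x 1, ?_, ?_⟩
    · rcases abs_eq (by norm_num : (0:ℤ) ≤ 1) |>.1 a1 with h | h <;> omega
    · funext i; fin_cases i <;> simp <;> omega
  · rw [abs_eq_zero] at a0 a1
    refine ⟨2, y 2 - x 2, ?_, ?_⟩
    · rcases abs_eq (by norm_num : (0:ℤ) ≤ 1) |>.1 a2 with h | h <;> omega
    · funext i; fin_cases i <;> simp <;> omega

/-- The layered matchings are rigid: they have no finite modification. -/
lemma rigid {σ : Fin 3 → ℤ} (hσ : ∀ i, σ i * σ i = 1) (c : ZMod N → Fin 3) (k : ZMod N)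
    (Λ : Finset Site) (τ' : Dimers) (h : τ' ∈ completions Λ (layered hσ c k)) :
    τ' = layered hσ c k := by
  classical
  set τ := layered hσ c k with hτ
  have hpar : ∀ x, τ.1 x = partner σ c k x := fun x => rfl
  have hin : ∀ x, τ'.1 x ≠ τ.1 x → x ∈ Λ := by
    intro x hx
    by_contra hxΛ
    exact hx ((h x (τ.1 x) (fun hh => hxΛ hh.1)).2 rfl)
  -- the set of the even sites where the matchings differ
  set D : Finset Site := Λ.filter (fun x => Even (ht σ x) ∧ τ'.1 x ≠ τ.1 x) with hD
  have hmemD : ∀ x, x ∈ D ↔ Even (ht σ x) ∧ τ'.1 x ≠ τ.1 x := by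
    intro x
    rw [hD, Finset.mem_filter]
    exact ⟨fun hh => hh.2, fun hh => ⟨hin x hh.2, hh⟩⟩
  set φ : Site → Site := fun x => τ'.1 (τ.1 x) with hφ
  have hφinj : ∀ x y, φ x = φ y → x = y := by
    intro x y hxy
    have h1 : τ.1 x = τ.1 y := by
      have := congrArg τ'.1 hxy
      simpa only [hφ, (τ'.2 _).2] using this
    have h2 := congrArg τ.1 h1
    simpa only [(τ.2 _).2] using h2
  -- structure of the step
  have hstep : ∀ x ∈ D, ∃ i : Fin 3, ∃ a : ℤ, (a = 1 ∨ a = -1) ∧
      φ x = x + Pi.single (dir σ c k x) (σ (dir σ c k x)) + Pi.single i a ∧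
      ¬ (i = dir σ c k x ∧ a = - σ (dir σ c k x)) := by
    intro x hx
    have hx' := (hmemD x).1 hx
    obtain ⟨i, a, ha, hy⟩ := nbr_cases (τ'.2 (τ.1 x)).1
    refine ⟨i, a, ha, ?_, ?_⟩
    · show τ'.1 (τ.1 x) = _
      rw [hy, hpar, partner, eps, if_pos hx'.1, one_mul]
    · rintro ⟨rfl, rfl⟩
      apply hx'.2
      have h3 : τ'.1 (τ.1 x) = x := by
        rw [hy, hpar, partner, eps, if_pos hx'.1, one_mul, add_assoc, ← Pi.single_add]
        simp
      have h4 := congrArg τ'.1 h3
      rw [(τ'.2 _).2] at h4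
      exact h4.symm
  have hht : ∀ x ∈ D, ht σ (φ x) = ht σ x ∨ ht σ (φ x) = ht σ x + 2 := by
    intro x hx
    obtain ⟨i, a, ha, hy, -⟩ := hstep x hx
    rw [hy, ht_add, ht_add, ht_single, ht_single, hσ]
    rcases mul_self_eq_one_iff.1 (hσ i) with h5 | h5 <;> rcases ha with rfl | rfl <;>
      rw [h5] <;> omega
  have hmap : ∀ x ∈ D, φ x ∈ D := by
    intro x hx
    rw [hmemD]
    have hx' := (hmemD x).1 hx
    constructor
    · rcases hht x hx with h6 | h6
      · rw [h6]; exact hx'.1
      · rw [h6]; exact hx'.1.add even_two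
    · intro h7
      apply hx'.2
      -- τ' (φ x) = τ x
      have h8 : τ'.1 (φ x) = τ.1 x := (τ'.2 _).2
      rw [h8] at h7
      have h9 := congrArg τ.1 h7
      rw [(τ.2 _).2, (τ.2 _).2] at h9
      -- x = φ x = τ' (τ x)
      have h10 := congrArg τ'.1 h9
      rw [h8] at h10
      exact h10
  have hsum := sum_perm hmap (fun x _ y _ => hφinj x y)
  -- the height is constant along the steps
  have hconst : ∀ x ∈ D, ht σ (φ x) = ht σ x := by
    have h1 : ∑ x ∈ D, (ht σ (φ x) - ht σ x) = 0 := by
      rw [Finset.sum_sub_distrib, hsum, sub_self]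
    have h2 := (Finset.sum_eq_zero_iff_of_nonneg (fun x hx => by
      rcases hht x hx with h | h <;> omega)).1 h1
    intro x hx
    have := h2 x hx
    omega
  -- the potential
  have hpot : ∀ x ∈ D, σ (dir σ c k (φ x)) * (φ x) (dir σ c k (φ x)) =
      σ (dir σ c k x) * x (dir σ c k x) + 1 := by
    intro x hx
    have hc := hconst x hx
    have hd : dir σ c k (φ x) = dir σ c k x := by unfold dir; rw [hc]
    rw [hd]
    obtain ⟨i, a, ha, hy, hne⟩ := hstep x hx
    have hi : i ≠ dir σ c k x := by
      intro hi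
      subst hi
      rw [hy, ht_add, ht_add, ht_single, ht_single, hσ] at hc
      apply hne
      refine ⟨rfl, ?_⟩
      rcases mul_self_eq_one_iff.1 (hσ (dir σ c k x)) with h5 | h5 <;> rw [h5] at hc ⊢ <;> omega
    rw [hy]
    simp only [Pi.add_apply, Pi.single_eq_same, Pi.single_eq_of_ne hi.symm, add_zero, mul_add, hσ]
  have hempty : D = ∅ := by
    have h1 := hsum (fun x => σ (dir σ c k x) * x (dir σ c k x))
    have h2 : ∑ x ∈ D, σ (dir σ c k (φ x)) * (φ x) (dir σ c k (φ x)) =
        ∑ x ∈ D, (σ (dir σ c k x) * x (dir σ c k x) + 1) := Finset.sum_congr rfl hpot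
    rw [Finset.sum_add_distrib] at h2
    rw [h1] at h2
    have h3 : (D.card : ℤ) = 0 := by
      simpa using h2
    exact Finset.card_eq_zero.1 (by exact_mod_cast h3)
  have heven : ∀ x, Even (ht σ x) → τ'.1 x = τ.1 x := by
    intro x hx
    by_contra hne
    have : x ∈ D := (hmemD x).2 ⟨hx, hne⟩
    rw [hempty] at this
    exact absurd this (Finset.notMem_empty x)
  apply Subtype.ext
  funext x
  by_cases hx : Even (ht σ x)
  · exact heven x hx
  · have hx1 : Even (ht σ (τ.1 x)) := by
      rw [hpar, ht_partner hσ, eps, if_neg hx]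
      rw [Int.not_even_iff_odd] at hx
      have : ht σ x + -1 = ht σ x - 1 := by ring
      rw [this]
      exact hx.sub_odd odd_one
    have h1 := heven _ hx1
    rw [(τ.2 x).2] at h1
    have h2 := congrArg τ'.1 h1
    rw [(τ'.2 _).2] at h2
    exact h2.symm

lemma completions_layered {σ : Fin 3 → ℤ} (hσ : ∀ i, σ i * σ i = 1) (c : ZMod N → Fin 3)
    (k : ZMod N) (Λ : Finset Site) :
    completions Λ (layered hσ c k) = {layered hσ c k} := by
  ext τ'
  rw [Set.mem_singleton_iff]
  constructor
  · exact rigid hσ c k Λ τ'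
  · rintro rfl
    intro x y _
    exact Iff.rfl

/-! ### The measure -/

lemma measurable_apply (x : Site) : Measurable fun τ : Dimers => τ.1 x :=
  (measurable_pi_apply x).comp measurable_subtype_coe

lemma measurable_translate (v : Site) : Measurable (translate v) := by
  refine Measurable.subtype_mk ?_
  refine measurable_pi_lambda _ fun x => ?_
  exact (measurable_apply (x - v)).add_const v

lemma outside_le (Λ : Finset Site) : outside Λ ≤ instMeasurableSpaceDimers := by
  refine MeasurableSpace.generateFrom_le ?_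
  rintro E ⟨x, y, -, rfl⟩
  exact measurable_apply x (measurableSet_singleton y)

lemma measurableSet_completions (Λ : Finset Site) (τ : Dimers) :
    MeasurableSet[outside Λ] (completions Λ τ) := by
  have h : completions Λ τ = ⋂ x : Site, ⋂ y : Site, ⋂ _ : ¬ (x ∈ Λ ∧ y ∈ Λ),
      {τ' : Dimers | τ'.1 x = y ↔ τ.1 x = y} := by
    ext τ'
    simp only [completions, Set.mem_ofPred_eq, Set.mem_iInter]
  rw [h]
  refine @MeasurableSet.iInter _ _ (outside Λ) _ _ fun x => ?_
  refine @MeasurableSet.iInter _ _ (outside Λ) _ _ fun y => ?_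
  refine @MeasurableSet.iInter _ _ (outside Λ) _ _ fun hxy => ?_
  have hbase : MeasurableSet[outside Λ] {τ' : Dimers | τ'.1 x = y} :=
    MeasurableSpace.measurableSet_generateFrom ⟨x, y, hxy, rfl⟩
  by_cases hy : τ.1 x = y
  · have : {τ' : Dimers | τ'.1 x = y ↔ τ.1 x = y} = {τ' : Dimers | τ'.1 x = y} := by
      ext τ'; simp [hy]
    rw [this]; exact hbase
  · have : {τ' : Dimers | τ'.1 x = y ↔ τ.1 x = y} = {τ' : Dimers | τ'.1 x = y}ᶜ := by
      ext τ'; simp [hy]
    rw [this]; exact @MeasurableSet.compl _ _ (outside Λ) hbase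

/-- the uniform measure on the translates of a layered matching -/
noncomputable def layerMeasure {σ : Fin 3 → ℤ} (hσ : ∀ i, σ i * σ i = 1) (c : ZMod N → Fin 3) :
    Measure Dimers :=
  (N : ENNReal)⁻¹ • ∑ k : ZMod N, Measure.dirac (layered hσ c k)

lemma N_ne_zero : (N : ENNReal) ≠ 0 := by
  simpa using NeZero.ne N

lemma isProb {σ : Fin 3 → ℤ} (hσ : ∀ i, σ i * σ i = 1) (c : ZMod N → Fin 3) :
    IsProbabilityMeasure (layerMeasure hσ c) := by
  constructor
  simp only [layerMeasure, Measure.smul_apply, Measure.coe_finsetSum, Finset.sum_apply,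
    measure_univ, Finset.sum_const, Finset.card_univ, ZMod.card, nsmul_eq_mul, mul_one, smul_eq_mul]
  exact ENNReal.inv_mul_cancel N_ne_zero (ENNReal.natCast_ne_top N)

lemma layer_apply {σ : Fin 3 → ℤ} (hσ : ∀ i, σ i * σ i = 1) (c : ZMod N → Fin 3)
    {A : Set Dimers} (hA : MeasurableSet A) :
    layerMeasure hσ c A = (N : ENNReal)⁻¹ * ∑ k : ZMod N, A.indicator 1 (layered hσ c k) := by
  simp only [layerMeasure, Measure.smul_apply, Measure.coe_finsetSum, Finset.sum_apply,
    smul_eq_mul, Measure.dirac_apply' _ hA]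

lemma ae_layer {σ : Fin 3 → ℤ} (hσ : ∀ i, σ i * σ i = 1) (c : ZMod N → Fin 3)
    {p : Dimers → Prop} (hp : ∀ k, p (layered hσ c k)) : ∀ᵐ τ ∂(layerMeasure hσ c), p τ := by
  classical
  have hfin : (Set.range (layered hσ c)).Finite := Set.finite_range _
  have hmeas : MeasurableSet (Set.range (layered hσ c)) := by
    have : Set.range (layered hσ c) = ⋃ k, completions ∅ (layered hσ c k) := by
      ext τ
      simp only [Set.mem_range, Set.mem_iUnion, completions_layered hσ c, Set.mem_singleton_iff,
        eq_comm]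
    rw [this]
    exact MeasurableSet.iUnion fun k => outside_le ∅ _ (measurableSet_completions ∅ _)
  rw [ae_iff]
  refine measure_mono_null (t := (Set.range (layered hσ c))ᶜ) ?_ ?_
  · rintro τ hτ ⟨k, rfl⟩
    exact hτ (hp k)
  · rw [layer_apply hσ c hmeas.compl]
    simp

lemma isGibbs_layer {σ : Fin 3 → ℤ} (hσ : ∀ i, σ i * σ i = 1) (c : ZMod N → Fin 3) :
    IsGibbs (layerMeasure hσ c) := by
  classical
  have := isProb hσ c
  intro Λ A hA
  have hr : (fun τ => ((completions Λ τ ∩ A).ncard : ℝ) / ((completions Λ τ).ncard : ℝ))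
      =ᵐ[layerMeasure hσ c] A.indicator (fun _ => (1 : ℝ)) := by
    refine ae_layer hσ c fun k => ?_
    simp only [completions_layered hσ c k Λ, Set.ncard_singleton, Nat.cast_one, div_one]
    by_cases hk : layered hσ c k ∈ A
    · rw [Set.indicator_of_mem hk, Set.inter_eq_left.2 (Set.singleton_subset_iff.2 hk),
        Set.ncard_singleton]
      simp
    · rw [Set.indicator_of_notMem hk, Set.singleton_inter_eq_empty.2 hk, Set.ncard_empty]
      simp
  refine Filter.EventuallyEq.trans ?_ hr.symm
  set B : Set Dimers := ⋃ k : {k : ZMod N // layered hσ c k ∈ A}, completions Λ (layered hσ c k)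
    with hB
  have hBm : MeasurableSet[outside Λ] B :=
    @MeasurableSet.iUnion _ _ (outside Λ) _ _ fun k => measurableSet_completions Λ _
  have hAB : A.indicator (fun _ => (1 : ℝ)) =ᵐ[layerMeasure hσ c] B.indicator (fun _ => (1 : ℝ)) := by
    refine ae_layer hσ c fun k => ?_
    have hiff : layered hσ c k ∈ B ↔ layered hσ c k ∈ A := by
      rw [hB, Set.mem_iUnion]
      constructor
      · rintro ⟨⟨j, hj⟩, hk⟩
        rw [completions_layered hσ c j Λ, Set.mem_singleton_iff] at hk
        rw [hk]; exact hj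
      · intro hk
        exact ⟨⟨k, hk⟩, fun x y _ => Iff.rfl⟩
    by_cases hk : layered hσ c k ∈ A
    · rw [Set.indicator_of_mem hk, Set.indicator_of_mem (hiff.2 hk)]
    · rw [Set.indicator_of_notMem hk, Set.indicator_of_notMem (fun h => hk (hiff.1 h))]
  have hBsm : StronglyMeasurable[outside Λ] (B.indicator (fun _ => (1 : ℝ))) :=
    StronglyMeasurable.indicator (@stronglyMeasurable_const _ _ (outside Λ) _ _) hBm
  refine condExp_of_aestronglyMeasurable' (outside_le Λ) ⟨_, hBsm, hAB⟩ ?_
  exact (integrable_const (1 : ℝ)).indicator hA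

lemma isErgodic_layer {σ : Fin 3 → ℤ} (hσ : ∀ i, σ i * σ i = 1) (c : ZMod N → Fin 3) :
    IsErgodicEven (layerMeasure hσ c) := by
  classical
  refine ⟨?_, ?_⟩
  · intro v hv
    have hv' : Even (ht σ v) := (even_ht_iff hσ v).2 hv
    ext A hA
    rw [Measure.map_apply (measurable_translate v) hA, layer_apply hσ c hA,
      layer_apply hσ c (measurable_translate v hA)]
    congr 1
    have h1 : ∀ k : ZMod N, (translate v ⁻¹' A).indicator (1 : Dimers → ENNReal) (layered hσ c k) =
        A.indicator 1 (layered hσ c (k - ((ht σ v / 2 : ℤ) : ZMod N))) := by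
      intro k
      rw [← translate_layered hσ c k v hv']
      rfl
    simp only [h1]
    exact (Equiv.subRight ((ht σ v / 2 : ℤ) : ZMod N)).sum_comp
      (fun k => A.indicator (1 : Dimers → ENNReal) (layered hσ c k))
  · intro A hA hinv
    have hall : ∀ j k : ZMod N, layered hσ c j ∈ A → layered hσ c k ∈ A := by
      intro j k hj
      obtain ⟨m, hm⟩ := ZMod.intCast_surjective (k - j)
      set v : Site := Pi.single 0 (-(2 * m * σ 0)) with hv
      have hhv : ht σ v = -(2 * m) := by
        rw [hv, ht_single]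
        linear_combination (-(2 * m)) * hσ 0
      have heven : Even (ht σ v) := by rw [hhv]; exact ⟨-m, by ring⟩
      have h1 := hinv v ((even_ht_iff hσ v).1 heven)
      have h2 : translate v (layered hσ c j) = layered hσ c k := by
        rw [translate_layered hσ c j v heven, hhv]
        have e1 : (-(2 * m)) / 2 = -m := by omega
        rw [e1]
        push_cast
        rw [hm]
        congr 1
        ring
      rw [← h2]
      rw [← h1] at hj
      exact hj
    by_cases h0 : layered hσ c 0 ∈ A
    · right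
      rw [layer_apply hσ c hA]
      have : ∀ k : ZMod N, A.indicator (1 : Dimers → ENNReal) (layered hσ c k) = 1 := fun k => by
        rw [Set.indicator_of_mem (hall 0 k h0)]; rfl
      simp only [this, Finset.sum_const, Finset.card_univ, ZMod.card, nsmul_eq_mul, mul_one]
      exact ENNReal.inv_mul_cancel N_ne_zero (ENNReal.natCast_ne_top N)
    · left
      rw [layer_apply hσ c hA]
      have : ∀ k : ZMod N, A.indicator (1 : Dimers → ENNReal) (layered hσ c k) = 0 := fun k =>
        Set.indicator_of_notMem (fun h => h0 (hall k 0 h)) _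
      simp [this]

lemma mean_layer {σ : Fin 3 → ℤ} (hσ : ∀ i, σ i * σ i = 1) (c : ZMod N → Fin 3) (i : Fin 3) :
    meanCurrent (layerMeasure hσ c) i =
      (σ i : ℝ) * ((Finset.univ.filter fun k : ZMod N => c k = i).card : ℝ) / (N : ℝ) := by
  classical
  have hm : StronglyMeasurable fun τ : Dimers => ((τ.1 0 i : ℤ) : ℝ) := by
    refine Measurable.stronglyMeasurable ?_
    have h1 : Measurable fun τ : Dimers => τ.1 0 i :=
      (measurable_pi_apply i).comp (measurable_apply 0)
    exact (measurable_of_countable (fun z : ℤ => (z : ℝ))).comp h1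
  unfold meanCurrent layerMeasure
  rw [integral_smul_measure, integral_finsetSum_measure]
  · simp only [integral_dirac' _ _ hm]
    have hval : ∀ k : ZMod N, (((layered hσ c k).1 0 i : ℤ) : ℝ) =
        if c k = i then (σ i : ℝ) else 0 := by
      intro k
      show ((partner σ c k 0 i : ℤ) : ℝ) = _
      have h0 : ht σ 0 = 0 := by simp [ht]
      have hd : dir σ c k 0 = c k := by
        unfold dir; rw [h0]; simp
      unfold partner
      rw [hd, eps, h0]
      by_cases hk : c k = i
      · subst hk; simp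
      · rw [if_neg hk]
        have : i ≠ c k := fun h => hk h.symm
        simp [Pi.single_eq_of_ne this]
    simp only [hval, Finset.sum_ite, Finset.sum_const, Finset.sum_const_zero, add_zero,
      nsmul_eq_mul, ENNReal.toReal_inv, ENNReal.toReal_natCast, smul_eq_mul]
    ring
  · intro k _
    exact integrable_dirac' hm (by simp)

/-! ### The union of a matching with itself -/

lemma infinitePaths_self (τ : Dimers) : infinitePaths τ τ = ∅ := by
  ext C
  simp only [infinitePaths, Set.mem_ofPred_eq, Set.mem_empty_iff_false, iff_false,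
    Set.not_infinite]
  induction C using SimpleGraph.ConnectedComponent.ind with
  | h x =>
    refine Set.Finite.subset (Set.toFinite {x, τ.1 x}) ?_
    intro y hy
    rw [SimpleGraph.ConnectedComponent.mem_supp_iff, SimpleGraph.ConnectedComponent.eq] at hy
    obtain ⟨w⟩ := hy.symm
    have key : ∀ (a b : Site) (w : (unionGraph τ τ).Walk a b), (a = x ∨ a = τ.1 x) →
        (b = x ∨ b = τ.1 x) := by
      intro a b w
      induction w with
      | nil => exact id
      | cons hadj _ ih =>
        intro ha
        apply ih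
        have h1 : τ.1 _ = _ := hadj.2.elim id id
        rcases ha with ha | ha
        · right; rw [← h1, ha]
        · left; rw [← h1, ha, (τ.2 x).2]
    have := key x y w (Or.inl rfl)
    simpa using this

/-- **Infinite paths in the union of two 3D dimer samples: failure at all rational boundary
currents.** For every rational `s` with `|s_1| + |s_2| + |s_3| = 1` (a rational point of the boundary
of the octahedron `O`; for instance `s = (1/2, 1/2, 0)` or `s = (1/3, 1/3, 1/3)`, which are not
vertices) there is an ergodic Gibbs measure `ν` on dimer configurations of `ℤ^3` with mean current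
`s` such that for two independent samples `τ₁, τ₂` of `ν`, with positive probability, the union of
`τ₁` and `τ₂` has no infinite path at all. -/
theorem result (s : Fin 3 → ℚ) (hs : ∑ i, |s i| = 1) :
    ∃ ν : Measure Dimers, IsProbabilityMeasure ν ∧ IsGibbs ν ∧ IsErgodicEven ν ∧
      (∀ i, meanCurrent ν i = (s i : ℝ)) ∧
      0 < (ν.prod ν) {p : Dimers × Dimers | infinitePaths p.1 p.2 = ∅} := by
  classical
  -- a common denominator
  set N : ℕ := ∏ i, (s i).den with hN
  have hNpos : 0 < N := Finset.prod_pos fun i _ => (s i).den_pos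
  have : NeZero N := ⟨hNpos.ne'⟩
  have hdvd : ∀ i, (s i).den ∣ N := fun i => Finset.dvd_prod_of_mem _ (Finset.mem_univ i)
  set n : Fin 3 → ℕ := fun i => (s i).num.natAbs * (N / (s i).den) with hn
  have hn' : ∀ i, (n i : ℚ) = |s i| * N := by
    intro i
    obtain ⟨m, hm⟩ := hdvd i
    have hden : ((s i).den : ℚ) ≠ 0 := by exact_mod_cast (s i).den_pos.ne'
    have h1 : N / (s i).den = m := by rw [hm]; exact Nat.mul_div_cancel_left _ (s i).den_pos
    simp only [hn, h1]
    have h2 : |s i| = ((s i).num.natAbs : ℚ) / ((s i).den : ℚ) := by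
      conv_lhs => rw [← Rat.num_div_den (s i)]
      rw [abs_div, Nat.abs_cast]
      congr 1
      rw [← Int.cast_abs, Int.abs_eq_natAbs]
      simp
    rw [h2, hm]
    push_cast
    field_simp
  have hsum : ∑ i, n i = N := by
    have : (∑ i, (n i : ℚ)) = N := by
      simp only [hn', ← Finset.sum_mul, hs, one_mul]
    exact_mod_cast this
  have hcard : Fintype.card (ZMod N) = Fintype.card (Σ i : Fin 3, Fin (n i)) := by
    rw [ZMod.card, Fintype.card_sigma]
    simp [hsum]
  let e : ZMod N ≃ Σ i : Fin 3, Fin (n i) := Fintype.equivOfCardEq hcard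
  let c : ZMod N → Fin 3 := fun k => (e k).1
  let σ : Fin 3 → ℤ := fun i => if 0 ≤ s i then 1 else -1
  have hσ : ∀ i, σ i * σ i = 1 := by
    intro i
    simp only [σ]
    split_ifs <;> simp
  have hc : ∀ i, (Finset.univ.filter fun k : ZMod N => c k = i).card = n i := by
    intro i
    have h1 : (Finset.univ.filter fun k : ZMod N => c k = i).card =
        (Finset.univ.filter fun p : (Σ i : Fin 3, Fin (n i)) => p.1 = i).card := by
      refine Finset.card_bij (fun k _ => e k) ?_ ?_ ?_
      · intro k hk
        simpa [c] using hk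
      · intro a _ b _ h
        exact e.injective h
      · intro p hp
        refine ⟨e.symm p, ?_, by simp⟩
        simpa [c] using hp
    rw [h1]
    have h2 : (Finset.univ.filter fun p : (Σ i : Fin 3, Fin (n i)) => p.1 = i) =
        (Finset.univ : Finset (Fin (n i))).map ⟨fun a => ⟨i, a⟩, fun a b h => by simpa using h⟩ := by
      ext ⟨j, a⟩
      simp only [Finset.mem_filter, Finset.mem_univ, true_and, Finset.mem_map,
        Function.Embedding.coeFn_mk]
      constructor
      · rintro rfl
        exact ⟨a, rfl⟩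
      · rintro ⟨b, hb⟩
        exact (congrArg Sigma.fst hb).symm
    rw [h2, Finset.card_map, Finset.card_univ, Fintype.card_fin]
  have := isProb hσ c
  refine ⟨layerMeasure hσ c, inferInstance, isGibbs_layer hσ c, isErgodic_layer hσ c, ?_, ?_⟩
  · intro i
    rw [mean_layer hσ c i, hc i]
    have hNr : (N : ℝ) ≠ 0 := by exact_mod_cast hNpos.ne'
    have h1 : ((n i : ℕ) : ℝ) = ((|s i| : ℚ) : ℝ) * (N : ℝ) := by
      have := congrArg (fun q : ℚ => (q : ℝ)) (hn' i)
      simpa using this
    rw [h1]
    have h2 : (σ i : ℝ) * ((|s i| : ℚ) : ℝ) = ((s i : ℚ) : ℝ) := by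
      simp only [σ]
      split_ifs with h
      · rw [abs_of_nonneg h]; simp
      · rw [abs_of_neg (not_le.1 h)]; simp
    rw [← mul_assoc, h2]
    field_simp
  · have hsub : ({layered hσ c 0} : Set Dimers) ×ˢ ({layered hσ c 0} : Set Dimers) ⊆
        {p : Dimers × Dimers | infinitePaths p.1 p.2 = ∅} := by
      rintro ⟨a, b⟩ ⟨ha, hb⟩
      rw [Set.mem_singleton_iff] at ha hb
      simp only at ha hb
      subst ha; subst hb
      exact infinitePaths_self _
    refine lt_of_lt_of_le ?_ (measure_mono hsub)
    rw [Measure.prod_prod]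
    have hpos : 0 < layerMeasure hσ c {layered hσ c 0} := by
      have hle : (N : ENNReal)⁻¹ ≤ layerMeasure hσ c {layered hσ c 0} := by
        simp only [layerMeasure, Measure.smul_apply, Measure.coe_finsetSum, Finset.sum_apply,
          smul_eq_mul]
        calc (N : ENNReal)⁻¹ = (N : ENNReal)⁻¹ * 1 := (mul_one _).symm
          _ ≤ _ := by
            gcongr
            calc (1 : ENNReal) = Measure.dirac (layered hσ c 0) {layered hσ c 0} := by
                  rw [Measure.dirac_apply_of_mem (Set.mem_singleton _)]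
              _ ≤ _ := Finset.single_le_sum (f := fun k : ZMod N =>
                  Measure.dirac (layered hσ c k) {layered hσ c 0})
                  (fun _ _ => bot_le) (Finset.mem_univ 0)
      refine lt_of_lt_of_le ?_ hle
      exact ENNReal.inv_pos.2 (ENNReal.natCast_ne_top N)
    exact ENNReal.mul_pos hpos.ne' hpos.ne'

end Pool.Agent.Results.MP_5cb0a4_pr.BoundaryCurrents
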